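import Pool.Agent.Helper65.KPZ.St

/-!
# Project KP, module ZCR: criterion for integrally closed
-/

set_option autoImplicit false

universe u v

namespace Pool.Agent.Helper42.KPZ

open Pool.Agent.Helper65.KPZ

theorem hZCR : StZCR.{u, v} := by
  intro R₁ R₂ _ _ _ _ ι hι hic hcr
  rw [isIntegrallyClosed_iff (FractionRing R₂)]
  intro x hx
  obtain ⟨a, b, hb, rfl⟩ := IsFractionRing.div_surjective (A := R₂) x
  have hb' : b ≠ 0 := nonZeroDivisors.ne_zero hb
  have hbK : algebraMap R₂ (FractionRing R₂) b ≠ 0 := by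
    intro h
    apply hb'
    apply IsFractionRing.injective R₂ (FractionRing R₂)
    rw [h, map_zero]
  let j : FractionRing R₂ →+* FractionRing R₁ := IsFractionRing.map hι
  have hj : ∀ r : R₂, j (algebraMap R₂ (FractionRing R₂) r) =
      algebraMap R₁ (FractionRing R₁) (ι r) := fun r => IsLocalization.map_eq _ r
  have hcomp : j.comp (algebraMap R₂ (FractionRing R₂)) =
      (algebraMap R₁ (FractionRing R₁)).comp ι := by
    ext r
    exact hj r
  obtain ⟨P, hP, hPx⟩ := hx
  set x : FractionRing R₂ := algebraMap R₂ (FractionRing R₂) a / algebraMap R₂ (FractionRing R₂) b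
    with hxdef
  have h0 : Polynomial.eval₂ ((algebraMap R₁ (FractionRing R₁)).comp ι) (j x) P = 0 := by
    rw [← hcomp, ← Polynomial.hom_eval₂, hPx, map_zero]
  have h1 : IsIntegral R₁ (j x) := by
    refine ⟨P.map ι, hP.map ι, ?_⟩
    rw [Polynomial.eval₂_map]
    exact h0
  obtain ⟨s, hs⟩ := (IsIntegrallyClosed.isIntegral_iff).mp h1
  have h2 : ι b * s = ι a := by
    apply IsFractionRing.injective R₁ (FractionRing R₁)
    rw [map_mul, hs, ← hj, ← hj, ← map_mul, hxdef, mul_div_cancel₀ _ hbK]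
  have h3 : Polynomial.eval₂ ι s P = 0 := by
    apply IsFractionRing.injective R₁ (FractionRing R₁)
    rw [map_zero, Polynomial.hom_eval₂, hs]
    exact h0
  obtain ⟨s', hs'⟩ := hcr s ⟨b, hb', a, h2⟩ ⟨P, hP, h3⟩
  refine ⟨s', ?_⟩
  have h4 : b * s' = a := by
    apply hι
    rw [map_mul, ← hs', h2]
  rw [hxdef, eq_div_iff hbK, ← map_mul, mul_comm s' b, h4]

end Pool.Agent.Helper42.KPZ
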